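import Pool.Agent.V5helper49.PTR.Stm

/-!
# The step of the recursion
-/

set_option autoImplicit false

namespace Pool.Agent.V5helper55.PTR

open Finset Filter
open Pool.Agent.V5helper42.RS (W model)
open Pool.Agent.V5helper49.PTR

theorem adm_refl {N : ℕ} {F : Finset ℕ} (hF : F ⊆ Icc 1 N) (h : Adm F) :
    Adm (F.image fun k => N - k) := by
  intro p hp
  obtain ⟨b, hb, hb'⟩ := h p hp
  refine ⟨(N + (p - b)) % p, Nat.mod_lt _ hp.pos, fun t ht hcon => ?_⟩
  obtain ⟨k, hk, rfl⟩ := mem_image.1 ht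
  have hkN := (mem_Icc.1 (hF hk)).2
  refine hb' k hk ?_
  have h1 : (N - k) ≡ N + (p - b) [MOD p] := hcon
  have h2 : k + (N - k) + b ≡ k + (N + (p - b)) + b [MOD p] := (h1.add_left k).add_right b
  have h3 : k + (N - k) + b = N + b := by omega
  have h4 : k + (N + (p - b)) + b = N + k + p := by omega
  rw [h3, h4] at h2
  have h5 : N + b ≡ N + k [MOD p] := h2.trans (by simp [Nat.ModEq])
  have h6 : b ≡ k [MOD p] := Nat.ModEq.add_left_cancel' N h5
  have h7 : k % p = b % p := h6.symm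
  rw [h7, Nat.mod_eq_of_lt hb]

theorem t_STEP (hADM : S_ADM) (hCT : S_CT) : S_STEP := by
  classical
  intro s hs
  obtain ⟨β, hβ0, hβ1, N₁, hN₁⟩ := hADM
  have hs0 : (0 : ℝ) < (s : ℝ) + 1 := by positivity
  refine ⟨β / (4 * (s + 1)), by positivity, ?_, fun a hreg huni => ?_⟩
  · rw [div_le_iff₀ (by positivity)]
    nlinarith
  obtain ⟨N₂, hN₂⟩ := hCT s hs (model a) hreg
  obtain ⟨X₀, hX₀⟩ := eventually_atTop.1 huni
  have hexp := (isLittleO_pow_exp_pos_mul_atTop (s + 1) hβ0).def (one_pos)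
  obtain ⟨Y₀, hY₀⟩ := eventually_atTop.1 hexp
  obtain ⟨N₃, hN₃⟩ := exists_nat_ge (max (max X₀ Y₀) (12 / β))
  refine ⟨N₁ + N₂ + N₃ + 4 * 2 ^ s + 16, fun N hN F hFI hFc hFA => ?_⟩
  have hN3 : (N₃ : ℝ) ≤ N := by exact_mod_cast (by omega : N₃ ≤ N)
  have hNX : X₀ ≤ N := ((le_max_left _ _).trans (le_max_left _ _)).trans (hN₃.trans hN3)
  have hNY : Y₀ ≤ N := ((le_max_right _ _).trans (le_max_left _ _)).trans (hN₃.trans hN3)
  have hNβ : 12 / β ≤ N := (le_max_right _ _).trans (hN₃.trans hN3)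
  have hN16 : (16 : ℝ) ≤ N := by exact_mod_cast (by omega : 16 ≤ N)
  have hpow : (N : ℝ) ^ (s + 1) ≤ Real.exp (β * N) := by
    have h1 := hY₀ N hNY
    rw [one_mul, Real.norm_of_nonneg (by positivity), Real.norm_of_nonneg (by positivity)] at h1
    exact h1
  have hXe : X₀ ≤ Real.exp N := by linarith [Real.add_one_le_exp (N : ℝ)]
  obtain ⟨n, hn1, hn2, hn3⟩ := hX₀ (Real.exp N) hXe N (F.image fun k => N - k)
    (by rw [Real.log_exp]) (by
      intro t ht
      obtain ⟨k, hk, rfl⟩ := mem_image.1 ht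
      rw [mem_range]
      omega) (by
      rw [Real.log_exp]
      exact le_trans (by exact_mod_cast card_image_le) hFc) (adm_refl hFI hFA)
  obtain ⟨N', hN'⟩ : ∃ N', N' = n + N := ⟨_, rfl⟩
  have hNn : (N : ℝ) < n := by linarith [Real.add_one_le_exp (N : ℝ)]
  have hNn' : N < n := by exact_mod_cast hNn
  have hN'c : (N' : ℝ) = n + N := by rw [hN']; push_cast; rfl
  have hN'1 : (1 : ℝ) ≤ N' := by linarith
  have hN'0 : (0 : ℝ) < N' := by linarith
  have hN'e : Real.exp N ≤ N' := by linarith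
  have hlog : Real.log N' ≤ 2 * N := by
    rw [Real.log_le_iff_le_exp hN'0]
    have h1 : Real.exp (2 * N) = Real.exp N * Real.exp N := by
      rw [← Real.exp_add]
      ring_nf
    have h2 := Real.add_one_le_exp (N : ℝ)
    rw [h1]
    nlinarith
  have hlog0 : 0 ≤ Real.log N' := Real.log_nonneg hN'1
  obtain ⟨Z, hZd⟩ : ∃ Z, Z = ⌊(N' : ℝ) ^ β⌋₊ := ⟨_, rfl⟩
  have hβp : (0 : ℝ) < (N' : ℝ) ^ β := by positivity
  have hZ : (Z : ℝ) ≤ (N' : ℝ) ^ β := by
    rw [hZd]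
    exact Nat.floor_le hβp.le
  have hZ' : (N' : ℝ) ^ β < Z + 1 := by
    rw [hZd]
    exact Nat.lt_floor_add_one _
  have hβe : Real.exp (β * N) ≤ (N' : ℝ) ^ β := by
    rw [mul_comm, Real.exp_mul]
    exact Real.rpow_le_rpow (Real.exp_pos _).le hN'e hβ0.le
  have hZN : N ^ (s + 1) ≤ Z := by
    rw [hZd]
    refine Nat.le_floor ?_
    push_cast
    linarith
  have hNs : N ≤ N ^ (s + 1) := Nat.le_self_pow (by omega) N
  have hβ12 : (N' : ℝ) ^ β ≤ (N' : ℝ) ^ (1 / 12 : ℝ) := Real.rpow_le_rpow_of_exponent_le hN'1 hβ1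
  have hZN' : Z ≤ N' := by
    have h1 : (Z : ℝ) ≤ N' := by
      calc (Z : ℝ) ≤ (N' : ℝ) ^ β := hZ
        _ ≤ (N' : ℝ) ^ (1 : ℝ) := Real.rpow_le_rpow_of_exponent_le hN'1 (by linarith)
        _ = N' := Real.rpow_one _
    exact_mod_cast h1
  -- the fourth root of `Z`
  obtain ⟨u, hu⟩ : ∃ u, u = (N' : ℝ) ^ (β / 4) := ⟨_, rfl⟩
  have hu3 : 3 ≤ u := by
    have h1 : Real.exp (N * (β / 4)) ≤ u := by
      rw [hu, Real.exp_mul]
      exact Real.rpow_le_rpow (Real.exp_pos _).le hN'e (by positivity)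
    have h2 := Real.add_one_le_exp ((N : ℝ) * (β / 4))
    have h3 : 12 ≤ N * β := (div_le_iff₀ hβ0).1 hNβ
    linarith
  have hu4 : (N' : ℝ) ^ β = u ^ 4 := by
    rw [hu, ← Real.rpow_natCast, ← Real.rpow_mul hN'0.le]
    congr 1
    push_cast
    ring
  have hcond : ∀ x : ℕ, N ^ (s + 1) ≤ x → 4 * (Real.log N') ^ s + 2 * N ≤ (x : ℝ) := by
    intro x hx
    have h1 : (Real.log N') ^ s ≤ (2 * N) ^ s := pow_le_pow_left₀ hlog0 hlog s
    have h2 : ((N : ℝ)) ^ (s + 1) ≤ x := by exact_mod_cast hx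
    have h3 : (4 * 2 ^ s + 16 : ℝ) ≤ N := by
      exact_mod_cast (by omega : 4 * 2 ^ s + 16 ≤ N)
    have h4 : (N : ℝ) ≤ (N : ℝ) ^ s := le_self_pow₀ (by linarith) (by omega)
    have h5 : (0 : ℝ) < (N : ℝ) ^ s := by positivity
    rw [mul_pow] at h1
    rw [pow_succ] at h2
    nlinarith
  have hct : ∀ x : ℕ, N ^ (s + 1) ≤ x → x ≤ Z → Real.sqrt x / 2 ≤
      (((Ioc N x).filter (fun k => N' - k ∈ model a)).card : ℝ) := by
    intro x hx hxZ
    refine hN₂ N' (by omega) N x (hcond x hx) ?_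
    exact le_trans (le_trans (by exact_mod_cast hxZ) hZ) hβ12
  obtain ⟨F', hF'⟩ : ∃ F', F' = F ∪ (Ioc N Z).filter (fun k => N' - k ∈ model a) := ⟨_, rfl⟩
  have hF'I : F' ⊆ Icc 1 Z := by
    rw [hF']
    refine union_subset (fun k hk => ?_) fun k hk => ?_
    · have h1 := mem_Icc.1 (hFI hk)
      rw [mem_Icc]
      omega
    · have h1 := mem_Ioc.1 (mem_filter.1 hk).1
      rw [mem_Icc]
      omega
  have hF'M : ∀ k ∈ F', N' - k ∈ model a := by
    intro k hk
    rw [hF', mem_union] at hk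
    rcases hk with hk | hk
    · have h1 := mem_Icc.1 (hFI hk)
      have h2 := hn3 (N - k) (mem_image_of_mem _ hk)
      have h3 : N' - k = n + (N - k) := by omega
      rw [h3]
      exact h2
    · exact (mem_filter.1 hk).2
  have hcount : ∀ x : ℕ, N ^ (s + 1) ≤ x → x ≤ Z → Real.sqrt x / 2 ≤
      ((F'.filter (fun k => k ≤ x)).card : ℝ) := by
    intro x hx hxZ
    refine (hct x hx hxZ).trans ?_
    have h1 : (Ioc N x).filter (fun k => N' - k ∈ model a) ⊆ F'.filter (fun k => k ≤ x) := by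
      intro k hk
      have h2 := mem_filter.1 hk
      have h3 := mem_Ioc.1 h2.1
      rw [mem_filter, hF', mem_union, mem_filter, mem_Ioc]
      exact ⟨Or.inr ⟨⟨h3.1, by omega⟩, h2.2⟩, h3.2⟩
    exact_mod_cast card_le_card h1
  have huZ : u ≤ Real.sqrt Z / 2 := by
    rw [le_div_iff₀ (by norm_num)]
    refine Real.le_sqrt_of_sq_le ?_
    rw [hu4] at hZ'
    nlinarith [sq_nonneg u, mul_self_nonneg (u ^ 2 - 9)]
  have hs1 : (1 : ℝ) ≤ (s : ℝ) + 1 := by linarith [(Nat.cast_nonneg s : (0 : ℝ) ≤ s)]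
  refine ⟨N', F', by omega, hF'I.trans (Icc_subset_Icc_right hZN'), ?_, ?_, ?_, ?_, hF'M, ?_, ?_⟩
  · have h1 : F'.card ≤ Z := by simpa using card_le_card hF'I
    calc (F'.card : ℝ) ≤ Z := by exact_mod_cast h1
      _ ≤ (N' : ℝ) ^ β := hZ
      _ ≤ _ := Real.rpow_le_rpow_of_exponent_le hN'1 (by linarith)
  · refine hN₁ N' (by omega) a F' (fun k hk => ?_) hF'M
    have h1 := mem_Icc.1 (hF'I hk)
    exact ⟨h1.1, le_trans (by exact_mod_cast h1.2) hZ⟩
  · rw [hF']
    exact subset_union_left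
  · intro k hk hkN
    rw [hF', mem_union] at hk
    rcases hk with hk | hk
    · exact hk
    · have h1 := mem_Ioc.1 (mem_filter.1 hk).1
      omega
  · have h1 : β / (4 * ((s : ℝ) + 1)) * (s + 1) = β / 4 := by
      field_simp
    rw [h1, ← hu]
    refine huZ.trans ((hcount Z hZN le_rfl).trans ?_)
    exact_mod_cast card_le_card (filter_subset _ _)
  · intro x hx hxN'
    have hx' : N ^ (s + 1) ≤ x := by exact_mod_cast hx
    rcases le_or_gt x Z with h | h
    · refine le_trans ?_ (hcount x hx' h)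
      have hx16 : (16 : ℝ) ≤ x := by
        have : 16 ≤ x := by omega
        exact_mod_cast this
      have h1 : (x : ℝ) ^ (β / (4 * ((s : ℝ) + 1))) ≤ (x : ℝ) ^ (1 / 4 : ℝ) := by
        refine Real.rpow_le_rpow_of_exponent_le (by linarith) ?_
        rw [div_le_iff₀ (by positivity)]
        nlinarith
      refine h1.trans ?_
      rw [le_div_iff₀ (by norm_num)]
      refine Real.le_sqrt_of_sq_le ?_
      obtain ⟨v, hv⟩ : ∃ v, v = (x : ℝ) ^ (1 / 4 : ℝ) := ⟨_, rfl⟩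
      have hv0 : 0 ≤ v := by rw [hv]; positivity
      have hv4 : v ^ 4 = x := by
        rw [hv, ← Real.rpow_natCast, ← Real.rpow_mul (by positivity)]
        norm_num
      rw [← hv, ← hv4]
      rw [← hv4] at hx16
      have hv2 : 4 ≤ v ^ 2 := by nlinarith [sq_nonneg (v ^ 2)]
      nlinarith
    · have h1 : (x : ℝ) ^ (β / (4 * ((s : ℝ) + 1))) ≤ u := by
        calc (x : ℝ) ^ (β / (4 * ((s : ℝ) + 1))) ≤ (N' : ℝ) ^ (β / (4 * ((s : ℝ) + 1))) :=
              Real.rpow_le_rpow (Nat.cast_nonneg _) (by exact_mod_cast hxN') (by positivity)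
          _ ≤ (N' : ℝ) ^ (β / 4) := by
              refine Real.rpow_le_rpow_of_exponent_le hN'1 ?_
              exact div_le_div_of_nonneg_left hβ0.le (by norm_num) (by linarith)
          _ = u := hu.symm
      refine h1.trans (huZ.trans ((hcount Z hZN le_rfl).trans ?_))
      refine Nat.cast_le.2 (card_le_card fun k hk => ?_)
      rw [mem_filter] at hk ⊢
      exact ⟨hk.1, hk.2.trans h.le⟩

end Pool.Agent.V5helper55.PTR
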